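import Pool.Agent.H825R3.Tsi.Exist

/-!
# The separation constant of the unit ball of Tsirelson space is two
-/

open scoped ENNReal
open Finset Pool.Agent.H825R3.Tsi

namespace Pool.Agent.Results.MP_6d986f_an.SeparationIsTwo

/-- The constant `P(X)`: the supremum of the `c > 0` for which the unit ball contains an infinite
`c`-separated set. -/
noncomputable def sepConst (X : Type) [NormedAddCommGroup X] : ℝ :=
  sSup {c : ℝ | 0 < c ∧ ∃ S : Set X, S.Infinite ∧ (∀ x ∈ S, ‖x‖ ≤ 1) ∧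
    ∀ x ∈ S, ∀ y ∈ S, x ≠ y → c ≤ ‖x - y‖}

variable {T : Type} [NormedAddCommGroup T] [NormedSpace ℝ T] {e : ℕ → T}

/-- The coefficients of the vectors. -/
noncomputable def vv (N : ℕ) : ℕ →₀ ℝ := Finsupp.single N 1 + Finsupp.single (N + 1) 1

lemma vv_apply (N k : ℕ) : vv N k = if k = N ∨ k = N + 1 then 1 else 0 := by
  rw [vv, Finsupp.add_apply, Finsupp.single_apply, Finsupp.single_apply]
  by_cases h1 : k = N
  · subst h1; simp
  · by_cases h2 : k = N + 1
    · subst h2; simp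
    · simp [h1, h2, Ne.symm h1, Ne.symm h2]

lemma norm_vv_le (h : IsTsirelson T e) (N : ℕ) : ‖comb e (vv N)‖ ≤ 1 := by
  rw [h.norm_eq_rho]
  apply ENNReal.toReal_le_of_le_ofReal zero_le_one
  rw [ENNReal.ofReal_one]
  have hPhi : ∀ n, Phi (vv N) n = if n = N ∨ n = N + 1 then 1 else 0 := by
    intro n
    rw [Phi, vv_apply]
    split_ifs <;> simp
  apply rho_le_of
  · intro n
    rw [hPhi]
    split_ifs <;> simp
  · intro k t ht _
    have h1 : ∑ i ∈ range k, rho (ind (Set.Ico (t i) (t (i + 1))) (Phi (vv N))) ≤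
        ∑ i ∈ range k, ∑' n, ind (Set.Ico (t i) (t (i + 1))) (Phi (vv N)) n :=
      Finset.sum_le_sum fun i _ => rho_le_tsum _
    refine h1.trans ((sum_tsum_ind_le k (fun i => Set.Ico (t i) (t (i + 1))) ?_ Set.univ
      (fun i _ => Set.subset_univ _) (Phi (vv N))).trans ?_)
    · intro i j hij _ a ha b hb
      exact lt_of_lt_of_le ha.2 ((ht (show i + 1 ≤ j by omega)).trans hb.1)
    · have h2 : ∑' n, ind Set.univ (Phi (vv N)) n = ∑' n, Phi (vv N) n := by simp [ind]
      rw [h2, tsum_eq_sum (s := {N, N + 1})]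
      · rw [Finset.sum_pair (by omega), hPhi, hPhi]
        simp
        norm_num
      · intro b hb
        rw [hPhi, if_neg]
        simpa using hb

lemma two_le (h : IsTsirelson T e) {N M : ℕ} (hN : 3 ≤ N) (hNM : N + 1 < M) :
    2 ≤ ‖comb e (vv N - vv M)‖ := by
  set x : ℕ →₀ ℝ := vv N - vv M with hx
  let g : Fin 4 → ℕ := ![N, N + 1, M, M + 1]
  have hg : ∀ i j, i < j → g i < g j := by
    intro i j hij
    fin_cases i <;> fin_cases j <;> simp [g] at hij ⊢ <;> omega
  have hg3 : ∀ i, 3 ≤ g i := by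
    intro i
    fin_cases i <;> simp [g] <;> omega
  have hxg : ∀ i, |x (g i)| = 1 := by
    intro i
    rw [hx, Finsupp.sub_apply, vv_apply, vv_apply]
    fin_cases i
    · have h1 : ¬ (N = M ∨ N = M + 1) := by omega
      simp [g, h1]
    · have h1 : ¬ (N + 1 = M ∨ N + 1 = M + 1) := by omega
      show |(if N + 1 = N ∨ N + 1 = N + 1 then (1 : ℝ) else 0) -
        (if N + 1 = M ∨ N + 1 = M + 1 then (1 : ℝ) else 0)| = 1
      rw [if_pos (Or.inr rfl), if_neg h1]
      simp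
    · have h1 : ¬ (M = N ∨ M = N + 1) := by omega
      show |(if M = N ∨ M = N + 1 then (1 : ℝ) else 0) -
        (if M = M ∨ M = M + 1 then (1 : ℝ) else 0)| = 1
      rw [if_neg h1, if_pos (Or.inl rfl)]
      simp
    · have h1 : ¬ (M + 1 = N ∨ M + 1 = N + 1) := by omega
      show |(if M + 1 = N ∨ M + 1 = N + 1 then (1 : ℝ) else 0) -
        (if M + 1 = M ∨ M + 1 = M + 1 then (1 : ℝ) else 0)| = 1
      rw [if_neg h1, if_pos (Or.inr rfl)]
      simp
  have hadm : Admissible 4 (fun i => {g i}) := by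
    refine ⟨fun i => Finset.singleton_nonempty _, fun i k hk => ?_, fun i j hij a ha b hb => ?_⟩
    · rw [Finset.mem_singleton] at hk
      have := hg3 i
      omega
    · rw [Finset.mem_singleton] at ha hb
      rw [ha, hb]
      exact hg i j hij
  have h1 := h.adm_le x (by norm_num) hadm
  have h2 : ∀ i, 1 ≤ ‖comb e (restr {g i} x)‖ := by
    intro i
    refine le_trans (le_of_eq ?_) (h.coord_le (restr {g i} x) (g i))
    rw [restr, Finsupp.filter_apply_pos _ _ (Finset.mem_singleton_self _), hxg]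
  have h3 : (4 : ℝ) ≤ ∑ i, ‖comb e (restr {g i} x)‖ := by
    have := Finset.sum_le_sum (s := Finset.univ) fun i (_ : i ∈ Finset.univ) => h2 i
    simpa using this
  linarith

lemma comb_sub (x y : ℕ →₀ ℝ) : comb e (x - y) = comb e x - comb e y := by
  rw [comb_eq, comb_eq, comb_eq, map_sub]

lemma sep (h : IsTsirelson T e) {i j : ℕ} (hij : i ≠ j) :
    2 ≤ ‖comb e (vv (2 * i + 4)) - comb e (vv (2 * j + 4))‖ := by
  rcases lt_or_gt_of_ne hij with hlt | hlt
  · rw [← comb_sub]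
    exact two_le h (by omega) (by omega)
  · rw [norm_sub_rev, ← comb_sub]
    exact two_le h (by omega) (by omega)

/-- For every realisation `T` of Tsirelson space the constant `P(T)` is `2`, and it is attained:
the unit ball contains an infinite set of vectors with mutual distances (exactly) `2`.
Realisations exist. -/
theorem result :
    (∃ (T : Type) (_ : NormedAddCommGroup T) (_ : NormedSpace ℝ T) (e : ℕ → T),
      IsTsirelson T e) ∧
    ∀ (T : Type) [NormedAddCommGroup T] [NormedSpace ℝ T] (e : ℕ → T), IsTsirelson T e →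
      sepConst T = 2 ∧ ∃ S : Set T, S.Infinite ∧ (∀ x ∈ S, ‖x‖ ≤ 1) ∧
        ∀ x ∈ S, ∀ y ∈ S, x ≠ y → ‖x - y‖ = 2 := by
  refine ⟨⟨TT, inferInstance, inferInstance, ee, isTsirelson_TT⟩, fun T _ _ e h => ?_⟩
  have hS : ∃ S : Set T, S.Infinite ∧ (∀ x ∈ S, ‖x‖ ≤ 1) ∧
      ∀ x ∈ S, ∀ y ∈ S, x ≠ y → ‖x - y‖ = 2 := by
    refine ⟨Set.range fun j : ℕ => comb e (vv (2 * j + 4)), ?_, ?_, ?_⟩
    · apply Set.infinite_range_of_injective
      intro i j hij
      by_contra hne
      have h1 := sep h hne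
      have h2 : comb e (vv (2 * i + 4)) = comb e (vv (2 * j + 4)) := hij
      rw [h2, sub_self, norm_zero] at h1
      norm_num at h1
    · rintro _ ⟨j, rfl⟩
      exact norm_vv_le h _
    · rintro _ ⟨i, rfl⟩ _ ⟨j, rfl⟩ hne
      apply le_antisymm
      · refine (norm_sub_le _ _).trans ?_
        have h1 := norm_vv_le h (2 * i + 4)
        have h2 := norm_vv_le h (2 * j + 4)
        dsimp only
        linarith
      · apply sep h
        rintro rfl
        exact hne rfl
  refine ⟨?_, hS⟩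
  have hbd : ∀ c ∈ {c : ℝ | 0 < c ∧ ∃ S : Set T, S.Infinite ∧ (∀ x ∈ S, ‖x‖ ≤ 1) ∧
      ∀ x ∈ S, ∀ y ∈ S, x ≠ y → c ≤ ‖x - y‖}, c ≤ 2 := by
    rintro c ⟨_, S, hinf, hb, hc⟩
    obtain ⟨x, hx, y, hy, hne⟩ := hinf.nontrivial
    refine (hc x hx y hy hne).trans ((norm_sub_le _ _).trans ?_)
    linarith [hb x hx, hb y hy]
  have hmem : (2 : ℝ) ∈ {c : ℝ | 0 < c ∧ ∃ S : Set T, S.Infinite ∧ (∀ x ∈ S, ‖x‖ ≤ 1) ∧
      ∀ x ∈ S, ∀ y ∈ S, x ≠ y → c ≤ ‖x - y‖} := by
    obtain ⟨S, h1, h2, h3⟩ := hS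
    exact ⟨two_pos, S, h1, h2, fun x hx y hy hne => (h3 x hx y hy hne).ge⟩
  exact le_antisymm (csSup_le ⟨2, hmem⟩ hbd) (le_csSup ⟨2, hbd⟩ hmem)

end Pool.Agent.Results.MP_6d986f_an.SeparationIsTwo
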